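import Pool.Agent.Helper47.DS.Defs
import Pool.Agent.Helper74.WCO.Top

/-!
# The statement layer of Theorem D* (helper74, over helper47's stub `DS/Defs`)
-/

open Set BIC
open scoped Matroid

namespace BICS

universe u

namespace DST

/-- The plain grid and the star of a minor `G_n^+`. -/
theorem split1 {α : Type u} {M : Matroid α} {n : ℕ} (hn : 2 ≤ n) [M.Finite] {C D : Set α}
    (hC : C ⊆ M.E) (h : IsBicircular (M ／ C ＼ D) (GPlus n)) :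
    ∃ (S : Set α) (ends : α → Sym2 (ℕ × ℕ)), S ⊆ M.E \ (C ∪ D) ∧ Bic (M ／ C) S ends ∧
      Grd S ends 0 0 n n ∧ ((M.E \ (C ∪ D)) \ S).ncard ≤ n * n + 1 ∧
      ∀ (Q : Set α) (n' : ℕ), Disjoint (M.E \ (C ∪ D)) Q →
        KGe M (M.E \ (C ∪ D)) Q (2 * n') → KGe M S Q n' := by
  have hfC : (M ／ C).Finite := ⟨M.ground_finite.subset sdiff_subset⟩
  obtain ⟨ends, hB, hG⟩ := show1 hn h
  have hP := hG.toGrdP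
  refine ⟨_, ends, hP.sub, Bic_sub hB hP.sub, hP.grd, ?_, ?_⟩
  · rw [← rk_indep (star_indep hB hP)]
    exact (rk_mono (M ／ C) sdiff_subset).trans (rk_grdp_le hB hP)
  · intro Q n' hQ hK
    refine star1P hn hC ?_ hB hP hQ hK
    exact fun x hx => ⟨hx.1, fun h => hx.2 (Or.inl h)⟩

end DST

open DST

/-- Theorem D* in terms of the graph `G_n^+`. -/
theorem topDs_of {k : ℕ} (hD : DsStmt.{u} k) (q : ℕ) : ∃ N : ℕ, ∀ n ≥ N,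
    ∀ {α : Type u} (M : Matroid α) [M.Finite] (C₁ D₁ C₂ D₂ F G H : Set α),
    C₁ ⊆ M.E → D₂ ⊆ M.E → Disjoint (M.E \ (C₁ ∪ D₁)) (M.E \ (C₂ ∪ D₂)) →
    IsBicircular (M ／ C₁ ＼ D₁) (GPlus n) → IsBicircular (M✶ ／ D₂ ＼ C₂) (GPlus n) →
    C₁ ∩ D₂ ⊆ F ∪ G ∪ H →
    rk (M ／ (C₁ \ F)) (M.E \ (C₁ ∪ D₁)) ≤ rk (M ／ C₁) (M.E \ (C₁ ∪ D₁)) + q →
    rk (M✶ ／ (D₂ \ G)) (M.E \ (C₂ ∪ D₂)) ≤ rk (M✶ ／ D₂) (M.E \ (C₂ ∪ D₂)) + q →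
    N * (C₁ ∩ D₂ ∩ H).ncard ≤ n ^ 4 →
    KGe M (M.E \ (C₁ ∪ D₁)) (M.E \ (C₂ ∪ D₂)) N → HasUniformMinor M k := by
  obtain ⟨n₀, h₀⟩ := hD q
  refine ⟨4 * n₀ + 2, ?_⟩
  intro n hn α M _ C₁ D₁ C₂ D₂ F G H hC₁ hD₂ hdis hb₁ hb₂ hFG hdef₁ hdef₂ hH hK
  obtain ⟨S₁, e₁, hS₁, hB₁, hG₁, -, hk₁⟩ := split1 (by omega) hC₁ hb₁
  obtain ⟨S₂, e₂, hS₂, hB₂, hG₂, -, hk₂⟩ := split1 (M := M✶) (by omega) hD₂ hb₂
  rw [Matroid.dual_ground, union_comm D₂ C₂] at hS₂ hk₂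
  have hE₁ : M.E \ (C₁ ∪ D₁) ⊆ M.E := sdiff_subset
  have hE₂ : M.E \ (C₂ ∪ D₂) ⊆ M.E := sdiff_subset
  have k1 : KGe M S₁ (M.E \ (C₂ ∪ D₂)) (2 * n₀) := by
    refine hk₁ _ _ hdis ?_
    intro X h1 h2
    have := hK X h1 h2
    omega
  have k2 : KGe M✶ S₂ S₁ n₀ := by
    refine hk₂ _ _ (hdis.symm.mono_right hS₁) ?_
    exact k1.dual (hS₁.trans hE₁)
  have k3 : KGe M S₁ S₂ n₀ := by
    have := k2.dual (M := M✶) (hS₂.trans hE₂)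
    rwa [Matroid.dual_dual] at this
  refine h₀ n (by omega) M S₁ S₂ C₁ D₂ F G H e₁ e₂ 0 0 0 0 (hS₁.trans hE₁) (hS₂.trans hE₂)
    (hdis.mono hS₁ hS₂) ?_ ?_ hB₁ hG₁ hB₂ hG₂ hFG ?_ ?_ ?_ k3
  · exact fun c hc => ⟨hC₁ hc, fun h => (hS₁ h).2 (Or.inl hc)⟩
  · exact fun d hd => ⟨hD₂ hd, fun h => (hS₂ h).2 (Or.inr hd)⟩
  · exact defect_mono hC₁ sdiff_subset (fun x hx => ⟨hx.1, fun h => hx.2 (Or.inl h)⟩) hS₁ hdef₁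
  · exact defect_mono (M := M✶) (by exact hD₂) sdiff_subset
      (fun x hx => ⟨hx.1, fun h => hx.2 (Or.inr h)⟩) hS₂ hdef₂
  · exact (Nat.mul_le_mul_right _ (by omega)).trans hH

/-- The other kind of conflicting elements, in terms of the graph `G_n^+`. -/
theorem topDk_of {k : ℕ} (hD : DkStmt.{u} k) : ∃ N : ℕ, ∀ n ≥ N,
    ∀ {α : Type u} (M : Matroid α) [M.Finite] (C₁ D₁ C₂ D₂ : Set α),
    C₁ ⊆ M.E → C₂ ⊆ M.E → D₂ ⊆ M.E → Disjoint (M.E \ (C₁ ∪ D₁)) (M.E \ (C₂ ∪ D₂)) →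
    IsBicircular (M ／ C₁ ＼ D₁) (GPlus n) → IsBicircular (M✶ ／ D₂ ＼ C₂) (GPlus n) →
    N * (D₁ ∩ C₂).ncard ≤ n ^ 4 →
    KGe M (M.E \ (C₁ ∪ D₁)) (M.E \ (C₂ ∪ D₂)) N → HasUniformMinor M k := by
  obtain ⟨n₀, h₀⟩ := hD
  refine ⟨8 * n₀ + 8, ?_⟩
  intro n hn α M _ C₁ D₁ C₂ D₂ hC₁ hC₂ hD₂ hdis hb₁ hb₂ hH hK
  obtain ⟨S₁, e₁, hS₁, hB₁, hG₁, hc₁, hk₁⟩ := split1 (by omega) hC₁ hb₁
  obtain ⟨S₂, e₂, hS₂, hB₂, hG₂, hc₂, hk₂⟩ := split1 (M := M✶) (by omega) hD₂ hb₂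
  rw [Matroid.dual_ground, union_comm D₂ C₂] at hS₂ hk₂ hc₂
  have hE₁ : M.E \ (C₁ ∪ D₁) ⊆ M.E := sdiff_subset
  have hE₂ : M.E \ (C₂ ∪ D₂) ⊆ M.E := sdiff_subset
  have k1 : KGe M S₁ (M.E \ (C₂ ∪ D₂)) (2 * n₀) := by
    refine hk₁ _ _ hdis ?_
    intro X h1 h2
    have := hK X h1 h2
    omega
  have k2 : KGe M✶ S₂ S₁ n₀ := by
    refine hk₂ _ _ (hdis.symm.mono_right hS₁) ?_
    exact k1.dual (hS₁.trans hE₁)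
  have k3 : KGe M S₁ S₂ n₀ := by
    have := k2.dual (M := M✶) (hS₂.trans hE₂)
    rwa [Matroid.dual_dual] at this
  refine h₀ n (by omega) M S₁ S₂ C₁ D₂ e₁ e₂ 0 0 0 0 (hS₁.trans hE₁) (hS₂.trans hE₂)
    (hdis.mono hS₁ hS₂) ?_ ?_ hB₁ hG₁ hB₂ hG₂ ?_ k3
  · exact fun c hc => ⟨hC₁ hc, fun h => (hS₁ h).2 (Or.inl hc)⟩
  · exact fun d hd => ⟨hD₂ hd, fun h => (hS₂ h).2 (Or.inr hd)⟩
  · have hfin : M.E.Finite := M.ground_finite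
    have h1 : (M.E \ (S₁ ∪ S₂ ∪ C₁ ∪ D₂)).ncard ≤
        (D₁ ∩ C₂).ncard + ((M.E \ (C₁ ∪ D₁)) \ S₁).ncard +
          ((M.E \ (C₂ ∪ D₂)) \ S₂).ncard := by
      have hsub : M.E \ (S₁ ∪ S₂ ∪ C₁ ∪ D₂) ⊆
          (D₁ ∩ C₂) ∪ ((M.E \ (C₁ ∪ D₁)) \ S₁) ∪ ((M.E \ (C₂ ∪ D₂)) \ S₂) := by
        rintro e ⟨he, h2⟩
        by_cases hd1 : e ∈ D₁
        · by_cases hc2 : e ∈ C₂
          · exact Or.inl (Or.inl ⟨hd1, hc2⟩)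
          · refine Or.inr ⟨⟨he, ?_⟩, fun h => h2 (Or.inl (Or.inl (Or.inr h)))⟩
            rintro (h | h)
            · exact hc2 h
            · exact h2 (Or.inr h)
        · refine Or.inl (Or.inr ⟨⟨he, ?_⟩, fun h => h2 (Or.inl (Or.inl (Or.inl h)))⟩)
          rintro (h | h)
          · exact h2 (Or.inl (Or.inr h))
          · exact hd1 h
      refine (Set.ncard_le_ncard hsub (hfin.subset ?_)).trans ?_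
      · rintro e ((h | h) | h)
        · exact hC₂ h.2
        · exact h.1.1
        · exact h.1.1
      · refine (Set.ncard_union_le _ _).trans ?_
        have := Set.ncard_union_le (D₁ ∩ C₂) ((M.E \ (C₁ ∪ D₁)) \ S₁)
        omega
    have h2 : (M.E \ (S₁ ∪ S₂ ∪ C₁ ∪ D₂)).ncard ≤ (D₁ ∩ C₂).ncard + 2 * (n * n + 1) := by omega
    have h3 : 8 * n₀ ≤ n := by omega
    have h4 : 8 * (n₀ * (D₁ ∩ C₂).ncard) ≤ n ^ 4 := by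
      refine le_trans ?_ hH
      rw [← mul_assoc]
      exact Nat.mul_le_mul_right _ (by omega)
    have h5 : 8 * (n₀ * (2 * (n * n + 1))) ≤ 4 * n ^ 4 := by
      have h6 : 8 * n₀ * (2 * (n * n + 1)) ≤ n * (2 * (n * n + 1)) := Nat.mul_le_mul_right _ h3
      have h7 : n * n + 1 ≤ 2 * (n * n) := by nlinarith
      have h8 : n * (2 * (n * n + 1)) ≤ n * (2 * (2 * (n * n))) :=
        Nat.mul_le_mul_left _ (Nat.mul_le_mul_left _ h7)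
      have h9 : n * (n * n) ≤ n ^ 4 := by
        have : n ^ 4 = n * (n * (n * n)) := by ring
        rw [this]
        exact Nat.mul_le_mul_left _ (Nat.le_mul_of_pos_left _ (by omega))
      calc 8 * (n₀ * (2 * (n * n + 1))) = 8 * n₀ * (2 * (n * n + 1)) := by ring
        _ ≤ n * (2 * (2 * (n * n))) := h6.trans h8
        _ = 4 * (n * (n * n)) := by ring
        _ ≤ 4 * n ^ 4 := Nat.mul_le_mul_left _ h9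
    have h10 := Nat.mul_le_mul_left n₀ h2
    rw [mul_add] at h10
    omega

/-- The statement of the hand-in (over the rows `DsStmt` and `DkStmt`). -/
theorem few_conflicts_of {k : ℕ} (hk : 1 ≤ k) (hD : DsStmt.{u} k) (hD' : DkStmt.{u} k) (q : ℕ) :
    ∃ N : ℕ, ∀ n ≥ N, ∀ (α : Type u) (M : Matroid α), M.Finite → ∀ C₁ D₁ C₂ D₂ : Set α,
    C₁ ⊆ M.E → D₁ ⊆ M.E → C₂ ⊆ M.E → D₂ ⊆ M.E → Disjoint C₁ D₁ → Disjoint C₂ D₂ →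
    Disjoint (M ／ C₁ ＼ D₁).E (M ／ C₂ ＼ D₂).E →
    IsBicircular (M ／ C₁ ＼ D₁) (GPlus n) →
    IsBicircular (M ／ C₂ ＼ D₂)✶ (GPlus n) →
    (∀ X : Set α, (M ／ C₁ ＼ D₁).E ⊆ X → X ⊆ M.E \ (M ／ C₂ ＼ D₂).E →
      (N : ℕ∞) + M.eRk M.E ≤ M.eRk X + M.eRk (M.E \ X)) →
    (∃ F G H : Set α, C₁ ∩ D₂ = F ∪ G ∪ H ∧
        (M ／ (C₁ \ F)).eRk (M ／ C₁ ＼ D₁).E ≤ (M ／ C₁).eRk (M ／ C₁ ＼ D₁).E + q ∧
        (M✶ ／ (D₂ \ G)).eRk (M ／ C₂ ＼ D₂).E ≤ (M✶ ／ D₂).eRk (M ／ C₂ ＼ D₂).E + q ∧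
        N * H.ncard ≤ n ^ 4) ∨
      (∃ F G : Set α, D₁ ∩ C₂ = F ∪ G ∧
        (M ／ C₁).eRk (M ／ C₁ ＼ D₁).E ≤ (M ／ (C₁ ∪ F)).eRk (M ／ C₁ ＼ D₁).E + q ∧
        (M✶ ／ D₂).eRk (M ／ C₂ ＼ D₂).E ≤ (M✶ ／ (D₂ ∪ G)).eRk (M ／ C₂ ＼ D₂).E + q) ∨
      N * (D₁ ∩ C₂).ncard ≤ n ^ 4 →
    ∃ N : Matroid α, N ≤m M ∧ N.E.ncard = 2 * k ∧ ∀ B, N.IsBase B ↔ B ⊆ N.E ∧ B.ncard = k := by
  obtain ⟨n₁, h₁⟩ := topDs_of.{u} hD q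
  obtain ⟨n₂, h₂⟩ := topWcopp.{u} hk q
  obtain ⟨n₃, h₃⟩ := topDk_of.{u} hD'
  refine ⟨n₁ + n₂ + n₃, ?_⟩
  intro n hn α M hM C₁ D₁ C₂ D₂ hC₁ hD₁ hC₂ hD₂ hCD₁ hCD₂ hdis hb₁ hb₂ hκ hdef
  have g₁ : (M ／ C₁ ＼ D₁).E = M.E \ (C₁ ∪ D₁) := by
    rw [Matroid.delete_ground, Matroid.contract_ground, sdiff_sdiff]
  have g₂ : (M ／ C₂ ＼ D₂).E = M.E \ (C₂ ∪ D₂) := by
    rw [Matroid.delete_ground, Matroid.contract_ground, sdiff_sdiff]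
  have hd : (M ／ C₂ ＼ D₂)✶ = M✶ ／ D₂ ＼ C₂ := by
    rw [Matroid.dual_delete, Matroid.dual_contract, Matroid.contract_delete_comm _ hCD₂.symm]
  rw [g₁, g₂] at hdis hκ hdef
  rw [hd] at hb₂
  have fC : ∀ A : Set α, (M ／ A).Finite := fun A => ⟨M.ground_finite.subset sdiff_subset⟩
  have fD : ∀ A : Set α, (M✶ ／ A).Finite := fun A => ⟨M✶.ground_finite.subset sdiff_subset⟩
  have hK : KGe M (M.E \ (C₁ ∪ D₁)) (M.E \ (C₂ ∪ D₂)) (n₁ + n₂ + n₃) := by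
    intro X h1 h2
    have h3 := hκ X h1 h2
    rw [← cast_rk, ← cast_rk, ← cast_rk] at h3
    exact_mod_cast h3
  rcases hdef with ⟨F, G, H, hFG, hdef₁, hdef₂, hH⟩ | ⟨F, G, hFG, hdef₁, hdef₂⟩ | hH
  · have f1 := fC (C₁ \ F)
    have f2 := fC C₁
    have f3 := fD (D₂ \ G)
    have f4 := fD D₂
    have hHe : C₁ ∩ D₂ ∩ H = H := by
      rw [hFG]
      exact inter_eq_right.2 subset_union_right
    refine h₁ n (by omega) M C₁ D₁ C₂ D₂ F G H hC₁ hD₂ hdis hb₁ hb₂ hFG.subset ?_ ?_ ?_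
      (BQ.KGe.mono_n hK (by omega))
    · rw [← cast_rk, ← cast_rk] at hdef₁
      exact_mod_cast hdef₁
    · rw [← cast_rk, ← cast_rk] at hdef₂
      exact_mod_cast hdef₂
    · rw [hHe]
      exact (Nat.mul_le_mul_right _ (by omega)).trans hH
  · have f1 := fC (C₁ ∪ F)
    have f2 := fC C₁
    have f3 := fD (D₂ ∪ G)
    have f4 := fD D₂
    refine h₂ n (by omega) M C₁ D₁ C₂ D₂ F G hC₁ hD₁ hC₂ hD₂ hCD₁ hCD₂ hdis hb₁ hb₂ hFG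
      ?_ ?_ (BQ.KGe.mono_n hK (by omega))
    · rw [← cast_rk, ← cast_rk] at hdef₁
      exact_mod_cast hdef₁
    · rw [← cast_rk, ← cast_rk] at hdef₂
      exact_mod_cast hdef₂
  · refine h₃ n (by omega) M C₁ D₁ C₂ D₂ hC₁ hC₂ hD₂ hdis hb₁ hb₂ ?_
      (BQ.KGe.mono_n hK (by omega))
    exact (Nat.mul_le_mul_right _ (by omega)).trans hH

end BICS
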