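import Pool.Agent.Helper74.DST.Top

/-!
# The other kind of conflicts: exact blocks (helper74)

If contracting `F` as well changes the rank of `E` by at most `q`, then one of `q + 1` disjoint blocks
of the grid is not changed at all.
-/

open Set BIC
open scoped Matroid

namespace BICS

universe u

namespace DST

open WPP

/-- A plain grid of side `n` has at most `2 n ^ 2` edges. -/
lemma grd_ncard_le {α : Type*} {S : Set α} {ends : α → Sym2 (ℕ × ℕ)} {x y n : ℕ}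
    (hG : Grd S ends x y n n) : S.ncard ≤ 2 * (n * n) := by
  classical
  have hfin : (rect x y n n).Finite := by
    rw [← Set.encard_lt_top_iff]
    exact lt_of_le_of_lt (rect_encard x y n n) (ENat.natCast_lt_top _)
  have hc : (rect x y n n).ncard ≤ n * n := by
    have h := rect_encard x y n n
    rw [← hfin.cast_ncard_eq] at h
    exact_mod_cast h
  have key : ∀ (d : ℕ × ℕ), (S ∩ {e | ∃ p ∈ rect x y n n, ends e = s(p, p + d)}).ncard ≤
      n * n := by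
    intro d
    have h : ∀ e ∈ S ∩ {e | ∃ p ∈ rect x y n n, ends e = s(p, p + d)},
        ∃ p, p ∈ rect x y n n ∧ ends e = s(p, p + d) := fun e he => he.2
    choose! f hf using h
    refine (Set.ncard_le_ncard_of_injOn f (fun e he => (hf e he).1) ?_ hfin).trans hc
    intro e he e' he' hee
    apply hG.inj he.1 he'.1
    rw [(hf e he).2, (hf e' he').2, hee]
  have hsub : S ⊆ (S ∩ {e | ∃ p ∈ rect x y n n, ends e = s(p, p + (1, 0))}) ∪
      (S ∩ {e | ∃ p ∈ rect x y n n, ends e = s(p, p + (0, 1))}) := by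
    intro e he
    obtain ⟨p, r, h1, h2, h3, h4⟩ := hG.mem e he
    rcases h2 with ⟨h5, h6 | h6⟩ | ⟨h5, h6 | h6⟩
    · refine Or.inr ⟨he, p, h3, ?_⟩
      rw [h1, show r = p + (0, 1) from Prod.ext (by simp [h5]) (by simp [h6])]
    · refine Or.inr ⟨he, r, h4, ?_⟩
      rw [h1, Sym2.eq_swap, show p = r + (0, 1) from Prod.ext (by simp [h5]) (by simp [h6])]
    · refine Or.inl ⟨he, p, h3, ?_⟩
      rw [h1, show r = p + (1, 0) from Prod.ext (by simp [h6]) (by simp [h5])]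
    · refine Or.inl ⟨he, r, h4, ?_⟩
      rw [h1, Sym2.eq_swap, show p = r + (1, 0) from Prod.ext (by simp [h6]) (by simp [h5])]
  have hSf : S.Finite := by
    have himg : (ends '' S).Finite := by
      refine ((hfin.prod hfin).image (fun p : (ℕ × ℕ) × (ℕ × ℕ) => s(p.1, p.2))).subset ?_
      rintro _ ⟨e, he, rfl⟩
      obtain ⟨p, r, h1, -, h3, h4⟩ := hG.mem e he
      exact ⟨(p, r), ⟨h3, h4⟩, h1.symm⟩
    exact Set.Finite.of_finite_image himg hG.inj
  refine (Set.ncard_le_ncard hsub ((hSf.inter_of_left _).union (hSf.inter_of_left _))).trans ?_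
  refine (Set.ncard_union_le _ _).trans ?_
  have h1 := key (1, 0)
  have h2 := key (0, 1)
  omega

/-- One of `q + 1` blocks is exact. -/
theorem exact_block {α : Type*} {M : Matroid α} [M.Finite] {C F E : Set α}
    {ends : α → Sym2 (ℕ × ℕ)} {x y n q m : ℕ} (hC : C ⊆ M.E) (hF : F ⊆ M.E)
    (hE : E ⊆ M.E \ (C ∪ F)) (hB : Bic (M ／ C) E ends)
    (hq : rk (M ／ C) E ≤ rk (M ／ (C ∪ F)) E + q) (hm : (q + 1) * m ≤ n) :
    ∃ a, rect a y m m ⊆ rect x y n n ∧ Bic (M ／ (C ∪ F)) (blk E ends a y m) ends := by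
  have fin1 : (M ／ C).Finite := BQ.fin_contract C
  have fin2 : (M ／ (C ∪ F)).Finite := BQ.fin_contract (C ∪ F)
  have hQ : Quo (M ／ C) (M ／ (C ∪ F)) E := quo_mono subset_union_left (union_subset hC hF) hE
  by_contra hcon
  push Not at hcon
  have hmn : ∀ j ≤ q, (j + 1) * m ≤ n := fun j hj =>
    (Nat.mul_le_mul_right _ (by omega)).trans hm
  have hblk : ∀ j ≤ q, rk (M ／ (C ∪ F)) (blk E ends (x + j * m) y m) + 1 ≤
      rk (M ／ C) (blk E ends (x + j * m) y m) := by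
    intro j hj
    by_contra h1
    push Not at h1
    have hj' := hmn j hj
    rw [Nat.add_mul] at hj'
    refine hcon (x + j * m) ?_ ?_
    · rintro ⟨p1, p2⟩ ⟨h2, h3, h4, h5⟩
      simp only at h2 h3 h4 h5
      have hmn' : m ≤ n := by nlinarith [hmn 0 (Nat.zero_le _)]
      exact ⟨by simp only; omega, by simp only; omega, by simp only; omega, by simp only; omega⟩
    · refine Bic_of_rk (Bic_sub hB blk_sub) ?_ ?_
      · exact fun z hz => hE (blk_sub hz)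
      · intro X hX
        have h2 := hQ X _ hX blk_sub
        have h3 := hQ.le (hX.trans blk_sub)
        omega
  have main : ∀ j ≤ q + 1, rk (M ／ (C ∪ F)) (ins E ends (rect x y (j * m) m)) + j ≤
      rk (M ／ C) (ins E ends (rect x y (j * m) m)) := by
    intro j
    induction j with
    | zero =>
      intro _
      have := hQ.le (X := ins E ends (rect x y (0 * m) m)) (fun z hz => hz.1)
      omega
    | succ j ih =>
      intro hj
      have h1 := ih (by omega)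
      have h2 := hblk j (by omega)
      have hsub1 : ins E ends (rect x y (j * m) m) ∪ blk E ends (x + j * m) y m ⊆
          ins E ends (rect x y ((j + 1) * m) m) := by
        rintro e (he | he)
        · refine ⟨he.1, fun v hv => ?_⟩
          obtain ⟨h3, h4, h5, h6⟩ := he.2 v hv
          refine ⟨h3, ?_, h5, h6⟩
          rw [Nat.add_mul]
          omega
        · refine ⟨he.1, fun v hv => ?_⟩
          obtain ⟨h3, h4, h5, h6⟩ := he.2 v hv
          refine ⟨by omega, ?_, h5, h6⟩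
          rw [Nat.add_mul]
          omega
      have hsk := C1Q.skew (N := M ／ C) hB (V₁ := rect x y (j * m) m)
        (V₂ := rect (x + j * m) y m m) (by
          rw [Set.disjoint_left]
          rintro v ⟨h3, h4, h5, h6⟩ ⟨h7, h8, h9, h10⟩
          omega) (X := ins E ends (rect x y (j * m) m)) (Y := blk E ends (x + j * m) y m)
        (Subset.refl _) (Subset.refl _)
      have hun := C1Q.rk_union_le' (M ／ (C ∪ F)) (ins E ends (rect x y (j * m) m))
        (blk E ends (x + j * m) y m)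
      have hmono := hQ _ _ hsub1 (fun z hz => hz.1)
      omega
  have h1 := main (q + 1) (le_refl _)
  have h2 := hQ (ins E ends (rect x y ((q + 1) * m) m)) E (fun z hz => hz.1) (Subset.refl _)
  omega

end DST

open DST WPP

/-- The other kind of conflicting elements, with exceptional sets `F` and `G`, in terms of the graph
`G_n^+`. -/
theorem topDkk_of {k : ℕ} (hD : DkStmt.{u} k) (q : ℕ) : ∃ N : ℕ, ∀ n ≥ N,
    ∀ {α : Type u} (M : Matroid α) [M.Finite] (C₁ D₁ C₂ D₂ F G H : Set α),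
    C₁ ⊆ M.E → D₁ ⊆ M.E → C₂ ⊆ M.E → D₂ ⊆ M.E → Disjoint (M.E \ (C₁ ∪ D₁)) (M.E \ (C₂ ∪ D₂)) →
    IsBicircular (M ／ C₁ ＼ D₁) (GPlus n) → IsBicircular (M✶ ／ D₂ ＼ C₂) (GPlus n) →
    D₁ ∩ C₂ = F ∪ G ∪ H →
    rk (M ／ C₁) (M.E \ (C₁ ∪ D₁)) ≤ rk (M ／ (C₁ ∪ F)) (M.E \ (C₁ ∪ D₁)) + q →
    rk (M✶ ／ D₂) (M.E \ (C₂ ∪ D₂)) ≤ rk (M✶ ／ (D₂ ∪ G)) (M.E \ (C₂ ∪ D₂)) + q →
    N * H.ncard ≤ n ^ 4 →
    KGe M (M.E \ (C₁ ∪ D₁)) (M.E \ (C₂ ∪ D₂)) N → HasUniformMinor M k := by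
  obtain ⟨n₀, h₀⟩ := hD
  set t2 := n₀ with ht2
  set t1 := t2 + 32 * (t2 + 1) ^ 2 + 1 with ht1
  set T := t1 + 32 * (t1 + 1) ^ 2 + 1 with hT
  set A := 2 * (q + 1) with hA
  set m₀ := 16 * n₀ * A ^ 2 + n₀ + 4 * (t1 + t2 + 2) + 2 with hm₀
  refine ⟨2 * A ^ 4 * n₀ + A * m₀ + 4 * T + 2, ?_⟩
  intro n hn α M _ C₁ D₁ C₂ D₂ F G H hC₁ hD₁ hC₂ hD₂ hdis hb₁ hb₂ hFGH hdef₁ hdef₂ hH hK
  have hn2 : 2 ≤ n := by omega
  obtain ⟨S₁, e₁, hS₁, hB₁, hG₁, hc₁, hk₁⟩ := split1 hn2 hC₁ hb₁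
  obtain ⟨S₂, e₂, hS₂, hB₂, hG₂, hc₂, hk₂⟩ := split1 (M := M✶) hn2 hD₂ hb₂
  rw [Matroid.dual_ground, union_comm D₂ C₂] at hS₂ hk₂ hc₂
  have hE₁ : M.E \ (C₁ ∪ D₁) ⊆ M.E := sdiff_subset
  have hE₂ : M.E \ (C₂ ∪ D₂) ⊆ M.E := sdiff_subset
  have hS₁E : S₁ ⊆ M.E := hS₁.trans hE₁
  have hS₂E : S₂ ⊆ M.E := hS₂.trans hE₂
  have hFD : F ⊆ D₁ ∩ C₂ := by
    rw [hFGH]; exact subset_union_left.trans subset_union_left
  have hGD : G ⊆ D₁ ∩ C₂ := by
    rw [hFGH]; exact subset_union_right.trans subset_union_left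
  have hHD : H ⊆ D₁ ∩ C₂ := by
    rw [hFGH]; exact subset_union_right
  have hFE : F ⊆ M.E := fun z hz => hD₁ (hFD hz).1
  have hGE : G ⊆ M.E := fun z hz => hD₁ (hGD hz).1
  have k1 : KGe M S₁ (M.E \ (C₂ ∪ D₂)) (2 * T) := by
    refine hk₁ _ _ hdis ?_
    intro X h1 h2
    have := hK X h1 h2
    omega
  have k2 : KGe M✶ S₂ S₁ T := by
    refine hk₂ _ _ (hdis.symm.mono_right hS₁) ?_
    exact k1.dual (hS₁.trans hE₁)
  have k3 : KGe M S₁ S₂ T := by
    have := k2.dual (M := M✶) (hS₂.trans hE₂)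
    rwa [Matroid.dual_dual] at this
  have hSd : Disjoint S₁ S₂ := hdis.mono hS₁ hS₂
  have fC : ∀ B : Set α, (M ／ B).Finite := fun B => BQ.fin_contract B
  have fD : ∀ B : Set α, (M✶ ／ B).Finite := fun B => BQ.fin_contract B
  have dS₁ : S₁ ⊆ M.E \ (C₁ ∪ F) := fun z hz =>
    ⟨hS₁E hz, fun h => (hS₁ hz).2 (h.imp id fun h => (hFD h).1)⟩
  have dS₂ : S₂ ⊆ M✶.E \ (D₂ ∪ G) := fun z hz =>
    ⟨hS₂E hz, fun h => (hS₂ hz).2 (h.elim Or.inr fun h => Or.inl (hGD h).2)⟩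
  have hdS₁ : rk (M ／ C₁) S₁ ≤ rk (M ／ (C₁ ∪ F)) S₁ + q := by
    have := quo_mono (M := M) (A := C₁) (B := C₁ ∪ F) (E := M.E \ (C₁ ∪ D₁)) subset_union_left
      (union_subset hC₁ hFE)
      (fun z hz => ⟨hz.1, fun h => hz.2 (h.imp id fun h => (hFD h).1)⟩) S₁ _ hS₁ (Subset.refl _)
    omega
  have hdS₂ : rk (M✶ ／ D₂) S₂ ≤ rk (M✶ ／ (D₂ ∪ G)) S₂ + q := by
    have := quo_mono (M := M✶) (A := D₂) (B := D₂ ∪ G) (E := M.E \ (C₂ ∪ D₂)) subset_union_left
      (union_subset hD₂ hGE)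
      (fun z hz => ⟨hz.1, fun h => hz.2 (h.elim Or.inr fun h => Or.inl (hGD h).2)⟩)
      S₂ _ hS₂ (Subset.refl _)
    omega
  -- the blocks
  set m := n / (q + 1) with hm
  have hm1 : (q + 1) * m ≤ n := Nat.mul_div_le n (q + 1)
  have hm2 : n < (q + 1) * (m + 1) := by
    rw [hm]
    exact Nat.lt_mul_div_succ n (Nat.succ_pos q)
  have hmm : m₀ ≤ m := by
    by_contra h
    push Not at h
    have h1 : (q + 1) * (m + 1) ≤ A * m₀ := by
      refine Nat.mul_le_mul ?_ (by omega)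
      omega
    omega
  have hnA : n ≤ A * m := by
    have h1 : (q + 1) * (m + 1) ≤ A * m := by
      rw [hA, mul_comm 2 (q + 1), mul_assoc]
      exact Nat.mul_le_mul_left _ (by omega)
    omega
  obtain ⟨a₁, hr₁, hBX⟩ := exact_block hC₁ hFE dS₁ hB₁ hdS₁ hm1
  obtain ⟨a₂, hr₂, hBY⟩ := exact_block (M := M✶) (by exact hD₂) (by exact hGE) dS₂ hB₂ hdS₂ hm1
  set X := blk S₁ e₁ a₁ 0 m with hX
  set Y := blk S₂ e₂ a₂ 0 m with hY
  have hXS : X ⊆ S₁ := blk_sub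
  have hYS : Y ⊆ S₂ := blk_sub
  have c1 : KGe M X S₂ (t1 + 1) := BQ.kge_blk (C := C₁)
    (fun z hz => ⟨hC₁ hz, fun h => (dS₁ h).2 (Or.inl hz)⟩) hS₁E hSd hB₁ hG₁ hr₁ (by omega) k3
  have c2 : KGe M✶ Y X (t2 + 1) := BQ.kge_blk (M := M✶) (C := D₂)
    (fun z hz => ⟨hD₂ hz, fun h => (dS₂ h).2 (Or.inl hz)⟩) (by exact hS₂E)
    (hSd.symm.mono_right hXS) hB₂ hG₂ hr₂ (by omega)
    (BQ.KGe.mono_n (c1.dual (hXS.trans hS₁E)) (by omega))
  have c3 : KGe M X Y n₀ := by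
    have := c2.dual (M := M✶) (hYS.trans hS₂E)
    rw [Matroid.dual_dual] at this
    exact BQ.KGe.mono_n this (by omega)
  refine h₀ m (by omega) M X Y (C₁ ∪ F) (D₂ ∪ G) e₁ e₂ a₁ 0 a₂ 0 (hXS.trans hS₁E)
    (hYS.trans hS₂E) (hSd.mono hXS hYS) ?_ ?_ hBX (Grd_sub hG₁ hr₁) hBY (Grd_sub hG₂ hr₂) ?_ c3
  · exact fun z hz => ⟨(union_subset hC₁ hFE) hz, fun h => (dS₁ (hXS h)).2 hz⟩
  · exact fun z hz => ⟨(union_subset hD₂ hGE) hz, fun h => (dS₂ (hYS h)).2 hz⟩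
  · have hfin : M.E.Finite := M.ground_finite
    have g1 := grd_ncard_le hG₁
    have g2 := grd_ncard_le hG₂
    have h1 : (M.E \ (X ∪ Y ∪ (C₁ ∪ F) ∪ (D₂ ∪ G))).ncard ≤
        H.ncard + S₁.ncard + ((M.E \ (C₁ ∪ D₁)) \ S₁).ncard + S₂.ncard +
          ((M.E \ (C₂ ∪ D₂)) \ S₂).ncard := by
      have hsub : M.E \ (X ∪ Y ∪ (C₁ ∪ F) ∪ (D₂ ∪ G)) ⊆
          H ∪ S₁ ∪ ((M.E \ (C₁ ∪ D₁)) \ S₁) ∪ S₂ ∪ ((M.E \ (C₂ ∪ D₂)) \ S₂) := by
        rintro e ⟨he, h2⟩
        have n1 : e ∉ C₁ := fun h => h2 (Or.inl (Or.inr (Or.inl h)))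
        have n2 : e ∉ F := fun h => h2 (Or.inl (Or.inr (Or.inr h)))
        have n3 : e ∉ D₂ := fun h => h2 (Or.inr (Or.inl h))
        have n4 : e ∉ G := fun h => h2 (Or.inr (Or.inr h))
        by_cases s1 : e ∈ S₁
        · exact Or.inl (Or.inl (Or.inl (Or.inr s1)))
        by_cases s2 : e ∈ S₂
        · exact Or.inl (Or.inr s2)
        by_cases hd1 : e ∈ D₁
        · by_cases hc2 : e ∈ C₂
          · have : e ∈ F ∪ G ∪ H := by rw [← hFGH]; exact ⟨hd1, hc2⟩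
            rcases this with (h | h) | h
            · exact absurd h n2
            · exact absurd h n4
            · exact Or.inl (Or.inl (Or.inl (Or.inl h)))
          · exact Or.inr ⟨⟨he, fun h => h.elim hc2 n3⟩, s2⟩
        · exact Or.inl (Or.inl (Or.inr ⟨⟨he, fun h => h.elim n1 hd1⟩, s1⟩))
      refine (Set.ncard_le_ncard hsub (hfin.subset ?_)).trans ?_
      · rintro e ((((h | h) | h) | h) | h)
        · exact hD₁ (hHD h).1
        · exact hS₁E h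
        · exact h.1.1
        · exact hS₂E h
        · exact h.1.1
      · refine (Set.ncard_union_le _ _).trans (Nat.add_le_add_right ?_ _)
        refine (Set.ncard_union_le _ _).trans (Nat.add_le_add_right ?_ _)
        refine (Set.ncard_union_le _ _).trans (Nat.add_le_add_right ?_ _)
        exact Set.ncard_union_le _ _
    have h2 : (M.E \ (X ∪ Y ∪ (C₁ ∪ F) ∪ (D₂ ∪ G))).ncard ≤ H.ncard + 8 * (n * n) := by
      have : 1 ≤ n * n := Nat.mul_pos (by omega) (by omega)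
      omega
    have h3 : 2 * (n₀ * H.ncard) ≤ m ^ 4 := by
      have h4 : A ^ 4 * (2 * (n₀ * H.ncard)) ≤ A ^ 4 * m ^ 4 := by
        calc A ^ 4 * (2 * (n₀ * H.ncard)) = (2 * A ^ 4 * n₀) * H.ncard := by ring
          _ ≤ (2 * A ^ 4 * n₀ + A * m₀ + 4 * T + 2) * H.ncard :=
            Nat.mul_le_mul_right _ (by omega)
          _ ≤ n ^ 4 := hH
          _ ≤ (A * m) ^ 4 := Nat.pow_le_pow_left hnA 4
          _ = A ^ 4 * m ^ 4 := by ring
      exact Nat.le_of_mul_le_mul_left h4 (by positivity)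
    have h5 : 2 * (n₀ * (8 * (n * n))) ≤ m ^ 4 := by
      have h6 : n * n ≤ (A * m) * (A * m) := Nat.mul_le_mul hnA hnA
      have h7 : 16 * n₀ * A ^ 2 ≤ m * m := by
        have : 16 * n₀ * A ^ 2 ≤ m := by omega
        exact this.trans (Nat.le_mul_of_pos_left _ (by omega))
      calc 2 * (n₀ * (8 * (n * n))) = 16 * n₀ * (n * n) := by ring
        _ ≤ 16 * n₀ * ((A * m) * (A * m)) := Nat.mul_le_mul_left _ h6
        _ = (16 * n₀ * A ^ 2) * (m * m) := by ring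
        _ ≤ (m * m) * (m * m) := Nat.mul_le_mul_right _ h7
        _ = m ^ 4 := by ring
    have h8 := Nat.mul_le_mul_left n₀ h2
    rw [mul_add] at h8
    refine h8.trans ?_
    generalize n₀ * H.ncard = u at *
    generalize n₀ * (8 * (n * n)) = v at *
    generalize m ^ 4 = w at *
    omega

end BICS
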