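import Pool.Agent.Helper74.DST.Block

/-!
# The statement of the hand-in over the rows `DsStmt` and `DkStmt` (helper74)
-/

open Set BIC
open scoped Matroid

namespace BICS

universe u

/-- The conflicts of one kind consist of two classes of bounded rank effect and of few elements. -/
theorem few_of_one_kind_of {k : ℕ} (hD : DsStmt.{u} k) (hD' : DkStmt.{u} k) (q : ℕ) :
    ∃ N : ℕ, ∀ n ≥ N, ∀ (α : Type u) (M : Matroid α), M.Finite → ∀ C₁ D₁ C₂ D₂ : Set α,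
    C₁ ⊆ M.E → D₁ ⊆ M.E → C₂ ⊆ M.E → D₂ ⊆ M.E → Disjoint C₁ D₁ → Disjoint C₂ D₂ →
    Disjoint (M ／ C₁ ＼ D₁).E (M ／ C₂ ＼ D₂).E →
    IsBicircular (M ／ C₁ ＼ D₁) (GPlus n) →
    IsBicircular (M ／ C₂ ＼ D₂)✶ (GPlus n) →
    (∀ X : Set α, (M ／ C₁ ＼ D₁).E ⊆ X → X ⊆ M.E \ (M ／ C₂ ＼ D₂).E →
      (N : ℕ∞) + M.eRk M.E ≤ M.eRk X + M.eRk (M.E \ X)) →
    (∃ F G H : Set α, C₁ ∩ D₂ = F ∪ G ∪ H ∧ N * H.ncard ≤ n ^ 4 ∧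
        (M ／ (C₁ \ F)).eRk (M ／ C₁ ＼ D₁).E ≤ (M ／ C₁).eRk (M ／ C₁ ＼ D₁).E + q ∧
        (M✶ ／ (D₂ \ G)).eRk (M ／ C₂ ＼ D₂).E ≤ (M✶ ／ D₂).eRk (M ／ C₂ ＼ D₂).E + q) ∨
      (∃ F G H : Set α, D₁ ∩ C₂ = F ∪ G ∪ H ∧ N * H.ncard ≤ n ^ 4 ∧
        (M ／ C₁).eRk (M ／ C₁ ＼ D₁).E ≤ (M ／ (C₁ ∪ F)).eRk (M ／ C₁ ＼ D₁).E + q ∧
        (M✶ ／ D₂).eRk (M ／ C₂ ＼ D₂).E ≤ (M✶ ／ (D₂ ∪ G)).eRk (M ／ C₂ ＼ D₂).E + q) →
    ∃ U : Matroid α, U ≤m M ∧ U.E.ncard = 2 * k ∧ ∀ B, U.IsBase B ↔ B ⊆ U.E ∧ B.ncard = k := by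
  obtain ⟨n₁, h₁⟩ := topDs_of.{u} hD q
  obtain ⟨n₂, h₂⟩ := topDkk_of.{u} hD' q
  refine ⟨n₁ + n₂, ?_⟩
  intro n hn α M hM C₁ D₁ C₂ D₂ hC₁ hD₁ hC₂ hD₂ hCD₁ hCD₂ hdis hb₁ hb₂ hκ hdef
  have g₁ : (M ／ C₁ ＼ D₁).E = M.E \ (C₁ ∪ D₁) := by
    rw [Matroid.delete_ground, Matroid.contract_ground, sdiff_sdiff]
  have g₂ : (M ／ C₂ ＼ D₂).E = M.E \ (C₂ ∪ D₂) := by
    rw [Matroid.delete_ground, Matroid.contract_ground, sdiff_sdiff]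
  have hd : (M ／ C₂ ＼ D₂)✶ = M✶ ／ D₂ ＼ C₂ := by
    rw [Matroid.dual_delete, Matroid.dual_contract, Matroid.contract_delete_comm _ hCD₂.symm]
  rw [g₁, g₂] at hdis hκ hdef
  rw [hd] at hb₂
  have fC : ∀ A : Set α, (M ／ A).Finite := fun A => ⟨M.ground_finite.subset sdiff_subset⟩
  have fD : ∀ A : Set α, (M✶ ／ A).Finite := fun A => ⟨M✶.ground_finite.subset sdiff_subset⟩
  have hK : KGe M (M.E \ (C₁ ∪ D₁)) (M.E \ (C₂ ∪ D₂)) (n₁ + n₂) := by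
    intro X h1 h2
    have h3 := hκ X h1 h2
    rw [← cast_rk, ← cast_rk, ← cast_rk] at h3
    exact_mod_cast h3
  rcases hdef with ⟨F, G, H, hFG, hH, hdef₁, hdef₂⟩ | ⟨F, G, H, hFG, hH, hdef₁, hdef₂⟩
  · have f1 := fC (C₁ \ F)
    have f2 := fC C₁
    have f3 := fD (D₂ \ G)
    have f4 := fD D₂
    have hHe : C₁ ∩ D₂ ∩ H = H := by
      rw [hFG]
      exact inter_eq_right.2 subset_union_right
    refine h₁ n (by omega) M C₁ D₁ C₂ D₂ F G H hC₁ hD₂ hdis hb₁ hb₂ hFG.subset ?_ ?_ ?_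
      (BQ.KGe.mono_n hK (by omega))
    · rw [← cast_rk, ← cast_rk] at hdef₁
      exact_mod_cast hdef₁
    · rw [← cast_rk, ← cast_rk] at hdef₂
      exact_mod_cast hdef₂
    · rw [hHe]
      exact (Nat.mul_le_mul_right _ (by omega)).trans hH
  · have f1 := fC (C₁ ∪ F)
    have f2 := fC C₁
    have f3 := fD (D₂ ∪ G)
    have f4 := fD D₂
    refine h₂ n (by omega) M C₁ D₁ C₂ D₂ F G H hC₁ hD₁ hC₂ hD₂ hdis hb₁ hb₂ hFG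
      ?_ ?_ ?_ (BQ.KGe.mono_n hK (by omega))
    · rw [← cast_rk, ← cast_rk] at hdef₁
      exact_mod_cast hdef₁
    · rw [← cast_rk, ← cast_rk] at hdef₂
      exact_mod_cast hdef₂
    · exact (Nat.mul_le_mul_right _ (by omega)).trans hH

end BICS
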