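import Pool.Agent.Helper29.DS.All
import Pool.Agent.Helper74.DST.Stm

/-!
# Theorem D*, final form (MP_5165fa)
-/

open Set BIC
open scoped Matroid

namespace BICS

universe u

/-- The conflicts of one kind consist of two classes of bounded rank effect and of at most
`n ^ 4 / N` other elements. -/
theorem few_of_one_kind (k q : ℕ) :
    ∃ N : ℕ, ∀ n ≥ N, ∀ (α : Type u) (M : Matroid α), M.Finite → ∀ C₁ D₁ C₂ D₂ : Set α,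
    C₁ ⊆ M.E → D₁ ⊆ M.E → C₂ ⊆ M.E → D₂ ⊆ M.E → Disjoint C₁ D₁ → Disjoint C₂ D₂ →
    Disjoint (M ／ C₁ ＼ D₁).E (M ／ C₂ ＼ D₂).E →
    IsBicircular (M ／ C₁ ＼ D₁) (GPlus n) →
    IsBicircular (M ／ C₂ ＼ D₂)✶ (GPlus n) →
    (∀ X : Set α, (M ／ C₁ ＼ D₁).E ⊆ X → X ⊆ M.E \ (M ／ C₂ ＼ D₂).E →
      (N : ℕ∞) + M.eRk M.E ≤ M.eRk X + M.eRk (M.E \ X)) →
    (∃ F G H : Set α, C₁ ∩ D₂ = F ∪ G ∪ H ∧ N * H.ncard ≤ n ^ 4 ∧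
        (M ／ (C₁ \ F)).eRk (M ／ C₁ ＼ D₁).E ≤ (M ／ C₁).eRk (M ／ C₁ ＼ D₁).E + q ∧
        (M✶ ／ (D₂ \ G)).eRk (M ／ C₂ ＼ D₂).E ≤ (M✶ ／ D₂).eRk (M ／ C₂ ＼ D₂).E + q) ∨
      (∃ F G H : Set α, D₁ ∩ C₂ = F ∪ G ∪ H ∧ N * H.ncard ≤ n ^ 4 ∧
        (M ／ C₁).eRk (M ／ C₁ ＼ D₁).E ≤ (M ／ (C₁ ∪ F)).eRk (M ／ C₁ ＼ D₁).E + q ∧
        (M✶ ／ D₂).eRk (M ／ C₂ ＼ D₂).E ≤ (M✶ ／ (D₂ ∪ G)).eRk (M ／ C₂ ＼ D₂).E + q) →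
    ∃ U : Matroid α, U ≤m M ∧ U.E.ncard = 2 * k ∧ ∀ B, U.IsBase B ↔ B ⊆ U.E ∧ B.ncard = k :=
  few_of_one_kind_of (dsFin k) (dkFin k) q

end BICS
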