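import Pool.Agent.Helper74.DST.V2

/-!
# Theorem D*, final form, version 2 (MP_5165fa)
-/

open Set BIC
open scoped Matroid

namespace BICS

universe u

/-- Few conflicts of one kind, or small rank or corank. -/
theorem few_conflicts2 (k : ℕ) :
    ∃ N : ℕ, ∀ n ≥ N, ∀ (α : Type u) (M : Matroid α), M.Finite → ∀ C₁ D₁ C₂ D₂ : Set α,
    C₁ ⊆ M.E → D₁ ⊆ M.E → C₂ ⊆ M.E → D₂ ⊆ M.E → Disjoint C₁ D₁ → Disjoint C₂ D₂ →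
    Disjoint (M ／ C₁ ＼ D₁).E (M ／ C₂ ＼ D₂).E →
    IsBicircular (M ／ C₁ ＼ D₁) (GPlus n) →
    IsBicircular (M ／ C₂ ＼ D₂)✶ (GPlus n) →
    (∀ X : Set α, (M ／ C₁ ＼ D₁).E ⊆ X → X ⊆ M.E \ (M ／ C₂ ＼ D₂).E →
      (N : ℕ∞) + M.eRk M.E ≤ M.eRk X + M.eRk (M.E \ X)) →
    (∃ F G H : Set α, C₁ ∩ D₂ = F ∪ G ∪ H ∧ N * H.ncard ≤ n ^ 4 ∧
        N * (M ／ (C₁ \ F)).eRk (M ／ C₁ ＼ D₁).E ≤ N * (M ／ C₁).eRk (M ／ C₁ ＼ D₁).E + n ^ 2 ∧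
        N * (M✶ ／ (D₂ \ G)).eRk (M ／ C₂ ＼ D₂).E ≤
          N * (M✶ ／ D₂).eRk (M ／ C₂ ＼ D₂).E + n ^ 2) ∨
      (∃ (F G H : Set α) (q : ℕ), D₁ ∩ C₂ = F ∪ G ∪ H ∧ N * (q + 1) ≤ n ∧
        N * (q + 1) ^ 2 * H.ncard ≤ n ^ 4 ∧
        (M ／ C₁).eRk (M ／ C₁ ＼ D₁).E ≤ (M ／ (C₁ ∪ F)).eRk (M ／ C₁ ＼ D₁).E + q ∧
        (M✶ ／ D₂).eRk (M ／ C₂ ＼ D₂).E ≤ (M✶ ／ (D₂ ∪ G)).eRk (M ／ C₂ ＼ D₂).E + q) ∨
      N * M.eRank ≤ n ^ 4 ∨ N * M✶.eRank ≤ n ^ 4 →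
    ∃ U : Matroid α, U ≤m M ∧ U.E.ncard = 2 * k ∧ ∀ B, U.IsBase B ↔ B ⊆ U.E ∧ B.ncard = k := by
  obtain ⟨n₁, h₁⟩ := topDd_of.{u} (ddFin k)
  obtain ⟨n₂, h₂⟩ := topDk2_of.{u} (dkFin k)
  obtain ⟨n₃, h₃⟩ := topRk_of.{u} (dsFin k)
  refine ⟨n₁ + n₂ + n₃, ?_⟩
  intro n hn α M hM C₁ D₁ C₂ D₂ hC₁ hD₁ hC₂ hD₂ hCD₁ hCD₂ hdis hb₁ hb₂ hκ hdef
  have g₁ : (M ／ C₁ ＼ D₁).E = M.E \ (C₁ ∪ D₁) := by
    rw [Matroid.delete_ground, Matroid.contract_ground, sdiff_sdiff]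
  have g₂ : (M ／ C₂ ＼ D₂).E = M.E \ (C₂ ∪ D₂) := by
    rw [Matroid.delete_ground, Matroid.contract_ground, sdiff_sdiff]
  have hd : (M ／ C₂ ＼ D₂)✶ = M✶ ／ D₂ ＼ C₂ := by
    rw [Matroid.dual_delete, Matroid.dual_contract, Matroid.contract_delete_comm _ hCD₂.symm]
  rw [g₁, g₂] at hdis hκ hdef
  rw [hd] at hb₂
  have fC : ∀ A : Set α, (M ／ A).Finite := fun A => ⟨M.ground_finite.subset sdiff_subset⟩
  have fD : ∀ A : Set α, (M✶ ／ A).Finite := fun A => ⟨M✶.ground_finite.subset sdiff_subset⟩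
  have hK : KGe M (M.E \ (C₁ ∪ D₁)) (M.E \ (C₂ ∪ D₂)) (n₁ + n₂ + n₃) := by
    intro X h1 h2
    have h3 := hκ X h1 h2
    rw [← cast_rk, ← cast_rk, ← cast_rk] at h3
    exact_mod_cast h3
  have num : ∀ a b N' : ℕ, n₁ ≤ N' → N' * a ≤ N' * b + n ^ 2 → n₁ * a ≤ n₁ * b + n ^ 2 := by
    intro a b N' hN' h1
    rcases Nat.le_total a b with h | h
    · exact (Nat.mul_le_mul_left _ h).trans (Nat.le_add_right _ _)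
    · obtain ⟨c, rfl⟩ := Nat.exists_eq_add_of_le h
      rw [Nat.mul_add] at h1 ⊢
      have : n₁ * c ≤ N' * c := Nat.mul_le_mul_right _ hN'
      omega
  rcases hdef with ⟨F, G, H, hFG, hH, hdef₁, hdef₂⟩ | ⟨F, G, H, q, hFG, hqn, hH, hdef₁, hdef₂⟩ |
    hr
  · have f1 := fC (C₁ \ F)
    have f2 := fC C₁
    have f3 := fD (D₂ \ G)
    have f4 := fD D₂
    have hHe : C₁ ∩ D₂ ∩ H = H := by
      rw [hFG]
      exact inter_eq_right.2 subset_union_right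
    refine h₁ n (by omega) M C₁ D₁ C₂ D₂ F G H hC₁ hD₂ hdis hb₁ hb₂ hFG.subset ?_ ?_ ?_
      (BQ.KGe.mono_n hK (by omega))
    · rw [← cast_rk, ← cast_rk] at hdef₁
      exact num _ _ (n₁ + n₂ + n₃) (by omega) (by exact_mod_cast hdef₁)
    · rw [← cast_rk, ← cast_rk] at hdef₂
      exact num _ _ (n₁ + n₂ + n₃) (by omega) (by exact_mod_cast hdef₂)
    · rw [hHe]
      exact (Nat.mul_le_mul_right _ (by omega)).trans hH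
  · have f1 := fC (C₁ ∪ F)
    have f2 := fC C₁
    have f3 := fD (D₂ ∪ G)
    have f4 := fD D₂
    refine h₂ n (by omega) M C₁ D₁ C₂ D₂ F G H q hC₁ hD₁ hC₂ hD₂ hdis hb₁ hb₂ hFG
      ?_ ?_ ?_ ?_ (BQ.KGe.mono_n hK (by omega))
    · rw [← cast_rk, ← cast_rk] at hdef₁
      exact_mod_cast hdef₁
    · rw [← cast_rk, ← cast_rk] at hdef₂
      exact_mod_cast hdef₂
    · exact (Nat.mul_le_mul_right _ (by omega)).trans hqn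
    · refine le_trans ?_ hH
      exact Nat.mul_le_mul_right _ (Nat.mul_le_mul_right _ (by omega))
  · refine h₃ n (by omega) M C₁ D₁ C₂ D₂ hC₁ hD₂ hdis hb₁ hb₂ ?_
      (BQ.KGe.mono_n hK (by omega))
    rw [← Matroid.eRk_ground, ← Matroid.eRk_ground, Matroid.dual_ground, ← cast_rk, ← cast_rk] at hr
    rcases hr with hr | hr
    · left
      have : (n₁ + n₂ + n₃) * rk M M.E ≤ n ^ 4 := by exact_mod_cast hr
      exact (Nat.mul_le_mul_right _ (by omega)).trans this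
    · right
      have : (n₁ + n₂ + n₃) * rk M✶ M.E ≤ n ^ 4 := by exact_mod_cast hr
      exact (Nat.mul_le_mul_right _ (by omega)).trans this

end BICS
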