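import Pool.Agent.Helper29.DS.Dd
import Pool.Agent.Helper70.DK.Rk
import Pool.Agent.Helper74.DST.Block

/-!
# Version 2 of the statement layer of Theorem D* (helper74)

Budgets `n ^ 2 / N` for the two classes `F`, `G` of the conflicts contracted for the first minor
(helper29's `ddFin`), a trade-off between the budget `q` and `|H|` for the other kind, rank forms
(helper70's `rkStmt_of_ds`).
-/

open Set BIC
open scoped Matroid

namespace BICS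

universe u

namespace DST

open WPP

/-- Codefects of disjoint parts add up. -/
lemma codef_sum {α ι : Type*} {L N : Matroid α} [L.Finite] [N.Finite] {E : Set α}
    {ends : α → Sym2 (ℕ × ℕ)} (hQ : Quo L N E) (hB : Bic L E ends) (V : ι → Set (ℕ × ℕ))
    (I : Finset ι) (hd : ∀ i ∈ I, ∀ j ∈ I, i ≠ j → Disjoint (V i) (V j))
    (h : ∀ i ∈ I, rk N (ins E ends (V i)) + 1 ≤ rk L (ins E ends (V i))) :
    rk N (ins E ends (⋃ i ∈ I, V i)) + I.card ≤ rk L (ins E ends (⋃ i ∈ I, V i)) := by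
  classical
  induction I using Finset.induction_on with
  | empty =>
    have := hQ.le (X := ins E ends (⋃ i ∈ (∅ : Finset ι), V i)) (fun z hz => hz.1)
    simpa using this
  | insert a I ha ih =>
    have ih' := ih (fun i hi j hj => hd i (Finset.mem_insert_of_mem hi) j
      (Finset.mem_insert_of_mem hj)) (fun i hi => h i (Finset.mem_insert_of_mem hi))
    have h1 := h a (Finset.mem_insert_self a I)
    have hU : (⋃ i ∈ insert a I, V i) = V a ∪ ⋃ i ∈ I, V i := by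
      rw [Finset.set_biUnion_insert]
    have hdis : Disjoint (V a) (⋃ i ∈ I, V i) := by
      rw [Set.disjoint_iUnion_right]
      intro i
      rw [Set.disjoint_iUnion_right]
      intro hi
      exact hd a (Finset.mem_insert_self a I) i (Finset.mem_insert_of_mem hi)
        (fun h => ha (h ▸ hi))
    have hsub : ins E ends (V a) ∪ ins E ends (⋃ i ∈ I, V i) ⊆
        ins E ends (⋃ i ∈ insert a I, V i) := by
      rw [hU]
      rintro e (he | he)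
      · exact ⟨he.1, fun v hv => Or.inl (he.2 v hv)⟩
      · exact ⟨he.1, fun v hv => Or.inr (he.2 v hv)⟩
    have hsk := C1Q.skew (N := L) hB hdis (X := ins E ends (V a))
      (Y := ins E ends (⋃ i ∈ I, V i)) (Subset.refl _) (Subset.refl _)
    have hun := C1Q.rk_union_le' N (ins E ends (V a)) (ins E ends (⋃ i ∈ I, V i))
    have hmono := hQ _ _ hsub (fun z hz => hz.1)
    rw [Finset.card_insert_of_notMem ha]
    omega

/-- One of `b ^ 2 > q` blocks is exact. -/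
theorem exact_block2 {α : Type*} {M : Matroid α} [M.Finite] {C F E : Set α}
    {ends : α → Sym2 (ℕ × ℕ)} {x y n q m b : ℕ} (hC : C ⊆ M.E) (hF : F ⊆ M.E)
    (hE : E ⊆ M.E \ (C ∪ F)) (hB : Bic (M ／ C) E ends)
    (hq : rk (M ／ C) E ≤ rk (M ／ (C ∪ F)) E + q) (hb : q < b * b) (hm : b * m ≤ n) :
    ∃ a a', rect a a' m m ⊆ rect x y n n ∧
      Bic (M ／ (C ∪ F)) (blk E ends a a' m) ends := by
  classical
  have fin1 : (M ／ C).Finite := BQ.fin_contract C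
  have fin2 : (M ／ (C ∪ F)).Finite := BQ.fin_contract (C ∪ F)
  have hQ : Quo (M ／ C) (M ／ (C ∪ F)) E := quo_mono subset_union_left (union_subset hC hF) hE
  by_contra hcon
  push Not at hcon
  set V : ℕ × ℕ → Set (ℕ × ℕ) := fun i => rect (x + i.1 * m) (y + i.2 * m) m m with hV
  set I : Finset (ℕ × ℕ) := Finset.range b ×ˢ Finset.range b with hI
  have hmul : ∀ i < b, i * m + m ≤ n := fun i hi => by
    have h1 : (i + 1) * m ≤ b * m := Nat.mul_le_mul_right _ hi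
    rw [Nat.add_mul, one_mul] at h1
    exact h1.trans hm
  have h1 := codef_sum hQ hB V I (by
    rintro ⟨i, i'⟩ hi ⟨j, j'⟩ hj hij
    have key : ∀ a c z w : ℕ, a ≠ c → z + a * m ≤ w → w < z + a * m + m → z + c * m ≤ w →
        w < z + c * m + m → False := by
      intro a c z w hac g1 g2 g3 g4
      rcases Nat.lt_or_gt_of_ne hac with h | h
      · have : (a + 1) * m ≤ c * m := Nat.mul_le_mul_right _ h
        rw [Nat.add_mul, one_mul] at this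
        omega
      · have : (c + 1) * m ≤ a * m := Nat.mul_le_mul_right _ h
        rw [Nat.add_mul, one_mul] at this
        omega
    rw [Set.disjoint_left]
    rintro ⟨v, v'⟩ ⟨g1, g2, g3, g4⟩ ⟨g5, g6, g7, g8⟩
    simp only at g1 g2 g3 g4 g5 g6 g7 g8
    by_cases hne : i = j
    · have hne' : i' ≠ j' := fun h => hij (by rw [hne, h])
      exact key i' j' y v' hne' g3 g4 g7 g8
    · exact key i j x v hne g1 g2 g5 g6) (by
    rintro ⟨i, i'⟩ hi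
    rw [hI, Finset.mem_product, Finset.mem_range, Finset.mem_range] at hi
    by_contra h1
    push Not at h1
    have hi1 := hmul i hi.1
    have hi2 := hmul i' hi.2
    refine hcon (x + i * m) (y + i' * m) ?_ ?_
    · rintro ⟨p1, p2⟩ ⟨h2, h3, h4, h5⟩
      simp only at h2 h3 h4 h5
      exact ⟨by simp only; omega, by simp only; omega, by simp only; omega, by simp only; omega⟩
    · refine Bic_of_rk (Bic_sub hB blk_sub) ?_ ?_
      · exact fun z hz => hE (blk_sub hz)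
      · intro X hX
        have h2 := hQ X _ hX blk_sub
        have h3 := hQ.le (hX.trans blk_sub)
        have h4 : rk (M ／ C) (blk E ends (x + i * m) (y + i' * m) m) ≤
          rk (M ／ (C ∪ F)) (blk E ends (x + i * m) (y + i' * m) m) := by
          have : rk (M ／ C) (ins E ends (V (i, i'))) < rk (M ／ (C ∪ F))
            (ins E ends (V (i, i'))) + 1 := h1
          exact Nat.lt_succ_iff.1 this
        omega)
  have h2 := hQ (ins E ends (⋃ i ∈ I, V i)) E (fun z hz => hz.1) (Subset.refl _)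
  have h3 : I.card = b * b := by
    rw [hI, Finset.card_product, Finset.card_range]
  omega

end DST

open DST WPP

/-- Theorem DD in terms of the graph `G_n^+`. -/
theorem topDd_of {k : ℕ} (hD : DdStmt.{u} k) : ∃ N : ℕ, ∀ n ≥ N,
    ∀ {α : Type u} (M : Matroid α) [M.Finite] (C₁ D₁ C₂ D₂ F G H : Set α),
    C₁ ⊆ M.E → D₂ ⊆ M.E → Disjoint (M.E \ (C₁ ∪ D₁)) (M.E \ (C₂ ∪ D₂)) →
    IsBicircular (M ／ C₁ ＼ D₁) (GPlus n) → IsBicircular (M✶ ／ D₂ ＼ C₂) (GPlus n) →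
    C₁ ∩ D₂ ⊆ F ∪ G ∪ H →
    N * rk (M ／ (C₁ \ F)) (M.E \ (C₁ ∪ D₁)) ≤ N * rk (M ／ C₁) (M.E \ (C₁ ∪ D₁)) + n ^ 2 →
    N * rk (M✶ ／ (D₂ \ G)) (M.E \ (C₂ ∪ D₂)) ≤ N * rk (M✶ ／ D₂) (M.E \ (C₂ ∪ D₂)) + n ^ 2 →
    N * (C₁ ∩ D₂ ∩ H).ncard ≤ n ^ 4 →
    KGe M (M.E \ (C₁ ∪ D₁)) (M.E \ (C₂ ∪ D₂)) N → HasUniformMinor M k := by
  obtain ⟨n₀, h₀⟩ := hD
  refine ⟨4 * n₀ + 2, ?_⟩
  intro n hn α M _ C₁ D₁ C₂ D₂ F G H hC₁ hD₂ hdis hb₁ hb₂ hFG hdef₁ hdef₂ hH hK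
  obtain ⟨S₁, e₁, hS₁, hB₁, hG₁, -, hk₁⟩ := split1 (by omega) hC₁ hb₁
  obtain ⟨S₂, e₂, hS₂, hB₂, hG₂, -, hk₂⟩ := split1 (M := M✶) (by omega) hD₂ hb₂
  rw [Matroid.dual_ground, union_comm D₂ C₂] at hS₂ hk₂
  have hE₁ : M.E \ (C₁ ∪ D₁) ⊆ M.E := sdiff_subset
  have hE₂ : M.E \ (C₂ ∪ D₂) ⊆ M.E := sdiff_subset
  have k1 : KGe M S₁ (M.E \ (C₂ ∪ D₂)) (2 * n₀) := by
    refine hk₁ _ _ hdis ?_
    intro X h1 h2
    have := hK X h1 h2
    omega
  have k2 : KGe M✶ S₂ S₁ n₀ := by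
    refine hk₂ _ _ (hdis.symm.mono_right hS₁) ?_
    exact k1.dual (hS₁.trans hE₁)
  have k3 : KGe M S₁ S₂ n₀ := by
    have := k2.dual (M := M✶) (hS₂.trans hE₂)
    rwa [Matroid.dual_dual] at this
  have num : ∀ a b c d N' : ℕ, n₀ ≤ N' → N' * a ≤ N' * b + n ^ 2 → (∀ q, a ≤ b + q → c ≤ d + q) →
      n₀ * c ≤ n₀ * d + n ^ 2 := by
    intro a b c d N' hN' h1 h2
    have h3 := h2 (a - b) (by omega)
    have h4 : n₀ * (a - b) ≤ n ^ 2 := by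
      refine (Nat.mul_le_mul_right _ hN').trans ?_
      rw [Nat.mul_sub]
      omega
    have h5 := Nat.mul_le_mul_left n₀ h3
    rw [Nat.mul_add] at h5
    omega
  refine h₀ n (by omega) M S₁ S₂ C₁ D₂ F G H e₁ e₂ 0 0 0 0 (hS₁.trans hE₁) (hS₂.trans hE₂)
    (hdis.mono hS₁ hS₂) ?_ ?_ hB₁ hG₁ hB₂ hG₂ hFG ?_ ?_ ?_ k3
  · exact fun c hc => ⟨hC₁ hc, fun h => (hS₁ h).2 (Or.inl hc)⟩
  · exact fun d hd => ⟨hD₂ hd, fun h => (hS₂ h).2 (Or.inr hd)⟩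
  · exact num _ _ _ _ _ (by omega) hdef₁ fun q hq =>
      defect_mono hC₁ sdiff_subset (fun x hx => ⟨hx.1, fun h => hx.2 (Or.inl h)⟩) hS₁ hq
  · exact num _ _ _ _ _ (by omega) hdef₂ fun q hq => defect_mono (M := M✶) (by exact hD₂)
      sdiff_subset (fun x hx => ⟨hx.1, fun h => hx.2 (Or.inr h)⟩) hS₂ hq
  · exact (Nat.mul_le_mul_right _ (by omega)).trans hH

/-- The other kind of conflicting elements, with a trade-off. -/
theorem topDk2_of {k : ℕ} (hD : DkStmt.{u} k) : ∃ N : ℕ, ∀ n ≥ N,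
    ∀ {α : Type u} (M : Matroid α) [M.Finite] (C₁ D₁ C₂ D₂ F G H : Set α) (q : ℕ),
    C₁ ⊆ M.E → D₁ ⊆ M.E → C₂ ⊆ M.E → D₂ ⊆ M.E → Disjoint (M.E \ (C₁ ∪ D₁)) (M.E \ (C₂ ∪ D₂)) →
    IsBicircular (M ／ C₁ ＼ D₁) (GPlus n) → IsBicircular (M✶ ／ D₂ ＼ C₂) (GPlus n) →
    D₁ ∩ C₂ = F ∪ G ∪ H →
    rk (M ／ C₁) (M.E \ (C₁ ∪ D₁)) ≤ rk (M ／ (C₁ ∪ F)) (M.E \ (C₁ ∪ D₁)) + q →
    rk (M✶ ／ D₂) (M.E \ (C₂ ∪ D₂)) ≤ rk (M✶ ／ (D₂ ∪ G)) (M.E \ (C₂ ∪ D₂)) + q →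
    N * (q + 1) ≤ n → N * (q + 1) ^ 2 * H.ncard ≤ n ^ 4 →
    KGe M (M.E \ (C₁ ∪ D₁)) (M.E \ (C₂ ∪ D₂)) N → HasUniformMinor M k := by
  obtain ⟨n₀, h₀⟩ := hD
  set t2 := n₀ with ht2
  set t1 := t2 + 32 * (t2 + 1) ^ 2 + 1 with ht1
  set T := t1 + 32 * (t1 + 1) ^ 2 + 1 with hT
  set N := 128 * n₀ + 32 * n₀ + 4 * T + 8 * (n₀ + 4 * (t1 + t2 + 2) + 2) + 32 with hN
  refine ⟨N, ?_⟩
  intro n hn α M _ C₁ D₁ C₂ D₂ F G H q hC₁ hD₁ hC₂ hD₂ hdis hb₁ hb₂ hFGH hdef₁ hdef₂ hqn hH hK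
  have hn2 : 2 ≤ n := by omega
  obtain ⟨S₁, e₁, hS₁, hB₁, hG₁, hc₁, hk₁⟩ := split1 hn2 hC₁ hb₁
  obtain ⟨S₂, e₂, hS₂, hB₂, hG₂, hc₂, hk₂⟩ := split1 (M := M✶) hn2 hD₂ hb₂
  rw [Matroid.dual_ground, union_comm D₂ C₂] at hS₂ hk₂ hc₂
  have hE₁ : M.E \ (C₁ ∪ D₁) ⊆ M.E := sdiff_subset
  have hE₂ : M.E \ (C₂ ∪ D₂) ⊆ M.E := sdiff_subset
  have hS₁E : S₁ ⊆ M.E := hS₁.trans hE₁
  have hS₂E : S₂ ⊆ M.E := hS₂.trans hE₂
  have hFD : F ⊆ D₁ ∩ C₂ := by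
    rw [hFGH]; exact subset_union_left.trans subset_union_left
  have hGD : G ⊆ D₁ ∩ C₂ := by
    rw [hFGH]; exact subset_union_right.trans subset_union_left
  have hHD : H ⊆ D₁ ∩ C₂ := by
    rw [hFGH]; exact subset_union_right
  have hFE : F ⊆ M.E := fun z hz => hD₁ (hFD hz).1
  have hGE : G ⊆ M.E := fun z hz => hD₁ (hGD hz).1
  have k1 : KGe M S₁ (M.E \ (C₂ ∪ D₂)) (2 * T) := by
    refine hk₁ _ _ hdis ?_
    intro X h1 h2
    have := hK X h1 h2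
    omega
  have k2 : KGe M✶ S₂ S₁ T := by
    refine hk₂ _ _ (hdis.symm.mono_right hS₁) ?_
    exact k1.dual (hS₁.trans hE₁)
  have k3 : KGe M S₁ S₂ T := by
    have := k2.dual (M := M✶) (hS₂.trans hE₂)
    rwa [Matroid.dual_dual] at this
  have hSd : Disjoint S₁ S₂ := hdis.mono hS₁ hS₂
  have fC : ∀ B : Set α, (M ／ B).Finite := fun B => BQ.fin_contract B
  have fD : ∀ B : Set α, (M✶ ／ B).Finite := fun B => BQ.fin_contract B
  have dS₁ : S₁ ⊆ M.E \ (C₁ ∪ F) := fun z hz =>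
    ⟨hS₁E hz, fun h => (hS₁ hz).2 (h.imp id fun h => (hFD h).1)⟩
  have dS₂ : S₂ ⊆ M✶.E \ (D₂ ∪ G) := fun z hz =>
    ⟨hS₂E hz, fun h => (hS₂ hz).2 (h.elim Or.inr fun h => Or.inl (hGD h).2)⟩
  have hdS₁ : rk (M ／ C₁) S₁ ≤ rk (M ／ (C₁ ∪ F)) S₁ + q := by
    have := quo_mono (M := M) (A := C₁) (B := C₁ ∪ F) (E := M.E \ (C₁ ∪ D₁)) subset_union_left
      (union_subset hC₁ hFE)
      (fun z hz => ⟨hz.1, fun h => hz.2 (h.imp id fun h => (hFD h).1)⟩) S₁ _ hS₁ (Subset.refl _)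
    omega
  have hdS₂ : rk (M✶ ／ D₂) S₂ ≤ rk (M✶ ／ (D₂ ∪ G)) S₂ + q := by
    have := quo_mono (M := M✶) (A := D₂) (B := D₂ ∪ G) (E := M.E \ (C₂ ∪ D₂)) subset_union_left
      (union_subset hD₂ hGE)
      (fun z hz => ⟨hz.1, fun h => hz.2 (h.elim Or.inr fun h => Or.inl (hGD h).2)⟩)
      S₂ _ hS₂ (Subset.refl _)
    omega
  -- the number of blocks
  set b := Nat.sqrt q + 1 with hb
  have hb1 : q < b * b := Nat.sqrt_lt.1 (Nat.lt_succ_self _)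
  have hb2 : b * b ≤ 2 * (q + 1) := by
    have h1 : Nat.sqrt q * Nat.sqrt q ≤ q := Nat.sqrt_le q
    rw [hb]
    nlinarith [sq_nonneg ((Nat.sqrt q : ℤ) - 1)]
  have hbq : b ≤ q + 1 := by
    rw [hb]
    exact Nat.succ_le_succ (Nat.sqrt_le_self q)
  have hbn : N * b ≤ n := (Nat.mul_le_mul_left _ hbq).trans hqn
  have hb0 : 0 < b := Nat.succ_pos _
  set m := n / b with hm
  have hm1 : b * m ≤ n := Nat.mul_div_le n b
  have hm2 : n < b * (m + 1) := Nat.lt_mul_div_succ n hb0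
  have hNm : N ≤ m := by
    rw [hm, Nat.le_div_iff_mul_le hb0]
    exact hbn
  have hnA : n ≤ 2 * b * m := by
    have h1 : b * (m + 1) ≤ 2 * b * m := by
      have : m + 1 ≤ 2 * m := by omega
      calc b * (m + 1) ≤ b * (2 * m) := Nat.mul_le_mul_left _ this
        _ = 2 * b * m := by ring
    omega
  obtain ⟨a₁, a₁', hr₁, hBX⟩ := exact_block2 hC₁ hFE dS₁ hB₁ hdS₁ hb1 hm1
  obtain ⟨a₂, a₂', hr₂, hBY⟩ := exact_block2 (M := M✶) (by exact hD₂) (by exact hGE) dS₂ hB₂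
    hdS₂ hb1 hm1
  set X := blk S₁ e₁ a₁ a₁' m with hX
  set Y := blk S₂ e₂ a₂ a₂' m with hY
  have hXS : X ⊆ S₁ := blk_sub
  have hYS : Y ⊆ S₂ := blk_sub
  have c1 : KGe M X S₂ (t1 + 1) := BQ.kge_blk (C := C₁)
    (fun z hz => ⟨hC₁ hz, fun h => (dS₁ h).2 (Or.inl hz)⟩) hS₁E hSd hB₁ hG₁ hr₁ (by omega) k3
  have c2 : KGe M✶ Y X (t2 + 1) := BQ.kge_blk (M := M✶) (C := D₂)
    (fun z hz => ⟨hD₂ hz, fun h => (dS₂ h).2 (Or.inl hz)⟩) (by exact hS₂E)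
    (hSd.symm.mono_right hXS) hB₂ hG₂ hr₂ (by omega)
    (BQ.KGe.mono_n (c1.dual (hXS.trans hS₁E)) (by omega))
  have c3 : KGe M X Y n₀ := by
    have := c2.dual (M := M✶) (hYS.trans hS₂E)
    rw [Matroid.dual_dual] at this
    exact BQ.KGe.mono_n this (by omega)
  refine h₀ m (by omega) M X Y (C₁ ∪ F) (D₂ ∪ G) e₁ e₂ a₁ a₁' a₂ a₂' (hXS.trans hS₁E)
    (hYS.trans hS₂E) (hSd.mono hXS hYS) ?_ ?_ hBX (Grd_sub hG₁ hr₁) hBY (Grd_sub hG₂ hr₂) ?_ c3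
  · exact fun z hz => ⟨(union_subset hC₁ hFE) hz, fun h => (dS₁ (hXS h)).2 hz⟩
  · exact fun z hz => ⟨(union_subset hD₂ hGE) hz, fun h => (dS₂ (hYS h)).2 hz⟩
  · have hfin : M.E.Finite := M.ground_finite
    have g1 := grd_ncard_le hG₁
    have g2 := grd_ncard_le hG₂
    have h1 : (M.E \ (X ∪ Y ∪ (C₁ ∪ F) ∪ (D₂ ∪ G))).ncard ≤
        H.ncard + S₁.ncard + ((M.E \ (C₁ ∪ D₁)) \ S₁).ncard + S₂.ncard +
          ((M.E \ (C₂ ∪ D₂)) \ S₂).ncard := by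
      have hsub : M.E \ (X ∪ Y ∪ (C₁ ∪ F) ∪ (D₂ ∪ G)) ⊆
          H ∪ S₁ ∪ ((M.E \ (C₁ ∪ D₁)) \ S₁) ∪ S₂ ∪ ((M.E \ (C₂ ∪ D₂)) \ S₂) := by
        rintro e ⟨he, h2⟩
        have n1 : e ∉ C₁ := fun h => h2 (Or.inl (Or.inr (Or.inl h)))
        have n2 : e ∉ F := fun h => h2 (Or.inl (Or.inr (Or.inr h)))
        have n3 : e ∉ D₂ := fun h => h2 (Or.inr (Or.inl h))
        have n4 : e ∉ G := fun h => h2 (Or.inr (Or.inr h))
        by_cases s1 : e ∈ S₁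
        · exact Or.inl (Or.inl (Or.inl (Or.inr s1)))
        by_cases s2 : e ∈ S₂
        · exact Or.inl (Or.inr s2)
        by_cases hd1 : e ∈ D₁
        · by_cases hc2 : e ∈ C₂
          · have : e ∈ F ∪ G ∪ H := by rw [← hFGH]; exact ⟨hd1, hc2⟩
            rcases this with (h | h) | h
            · exact absurd h n2
            · exact absurd h n4
            · exact Or.inl (Or.inl (Or.inl (Or.inl h)))
          · exact Or.inr ⟨⟨he, fun h => h.elim hc2 n3⟩, s2⟩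
        · exact Or.inl (Or.inl (Or.inr ⟨⟨he, fun h => h.elim n1 hd1⟩, s1⟩))
      refine (Set.ncard_le_ncard hsub (hfin.subset ?_)).trans ?_
      · rintro e ((((h | h) | h) | h) | h)
        · exact hD₁ (hHD h).1
        · exact hS₁E h
        · exact h.1.1
        · exact hS₂E h
        · exact h.1.1
      · refine (Set.ncard_union_le _ _).trans (Nat.add_le_add_right ?_ _)
        refine (Set.ncard_union_le _ _).trans (Nat.add_le_add_right ?_ _)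
        refine (Set.ncard_union_le _ _).trans (Nat.add_le_add_right ?_ _)
        exact Set.ncard_union_le _ _
    have h2 : (M.E \ (X ∪ Y ∪ (C₁ ∪ F) ∪ (D₂ ∪ G))).ncard ≤ H.ncard + 8 * (n * n) := by
      have : 1 ≤ n * n := Nat.mul_pos (by omega) (by omega)
      omega
    have hb4 : b ^ 4 ≤ 4 * (q + 1) ^ 2 := by
      have := Nat.mul_le_mul hb2 hb2
      calc b ^ 4 = b * b * (b * b) := by ring
        _ ≤ 2 * (q + 1) * (2 * (q + 1)) := this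
        _ = 4 * (q + 1) ^ 2 := by ring
    have hn4 : n ^ 4 ≤ 64 * (q + 1) ^ 2 * m ^ 4 := by
      calc n ^ 4 ≤ (2 * b * m) ^ 4 := Nat.pow_le_pow_left hnA 4
        _ = 16 * b ^ 4 * m ^ 4 := by ring
        _ ≤ 16 * (4 * (q + 1) ^ 2) * m ^ 4 :=
          Nat.mul_le_mul_right _ (Nat.mul_le_mul_left _ hb4)
        _ = 64 * (q + 1) ^ 2 * m ^ 4 := by ring
    have h3 : 2 * (n₀ * H.ncard) ≤ m ^ 4 := by
      have h4 : 64 * (q + 1) ^ 2 * (2 * (n₀ * H.ncard)) ≤ 64 * (q + 1) ^ 2 * m ^ 4 := by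
        calc 64 * (q + 1) ^ 2 * (2 * (n₀ * H.ncard))
            = (128 * n₀) * (q + 1) ^ 2 * H.ncard := by ring
          _ ≤ N * (q + 1) ^ 2 * H.ncard :=
            Nat.mul_le_mul_right _ (Nat.mul_le_mul_right _ (by omega))
          _ ≤ n ^ 4 := hH
          _ ≤ 64 * (q + 1) ^ 2 * m ^ 4 := hn4
      exact Nat.le_of_mul_le_mul_left h4 (by positivity)
    have h5 : 2 * (n₀ * (8 * (n * n))) ≤ m ^ 4 := by
      have h6 : n * n ≤ 8 * (q + 1) * (m * m) := by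
        calc n * n ≤ (2 * b * m) * (2 * b * m) := Nat.mul_le_mul hnA hnA
          _ = 4 * (b * b) * (m * m) := by ring
          _ ≤ 4 * (2 * (q + 1)) * (m * m) :=
            Nat.mul_le_mul_right _ (Nat.mul_le_mul_left _ hb2)
          _ = 8 * (q + 1) * (m * m) := by ring
      have h7 : 128 * n₀ * (q + 1) ≤ m * m := by
        have g : N * (q + 1) * (N * (q + 1)) ≤ 8 * (q + 1) * (m * m) :=
          (Nat.mul_le_mul hqn hqn).trans h6
        have g2 : 8 * (q + 1) * (128 * n₀ * (q + 1)) ≤ N * (q + 1) * (N * (q + 1)) := by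
          have g3 : 1024 * n₀ ≤ N * N := by
            have a1 : 32 ≤ N := by omega
            have a2 : 32 * n₀ ≤ N := by omega
            calc 1024 * n₀ = 32 * (32 * n₀) := by ring
              _ ≤ N * N := Nat.mul_le_mul a1 a2
          calc 8 * (q + 1) * (128 * n₀ * (q + 1)) = 1024 * n₀ * ((q + 1) * (q + 1)) := by ring
            _ ≤ N * N * ((q + 1) * (q + 1)) := Nat.mul_le_mul_right _ g3
            _ = N * (q + 1) * (N * (q + 1)) := by ring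
        exact Nat.le_of_mul_le_mul_left (g2.trans g) (by positivity)
      calc 2 * (n₀ * (8 * (n * n))) = 16 * n₀ * (n * n) := by ring
        _ ≤ 16 * n₀ * (8 * (q + 1) * (m * m)) := Nat.mul_le_mul_left _ h6
        _ = (128 * n₀ * (q + 1)) * (m * m) := by ring
        _ ≤ (m * m) * (m * m) := Nat.mul_le_mul_right _ h7
        _ = m ^ 4 := by ring
    have h8 := Nat.mul_le_mul_left n₀ h2
    rw [mul_add] at h8
    refine h8.trans ?_
    generalize n₀ * H.ncard = u at *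
    generalize n₀ * (8 * (n * n)) = v at *
    generalize m ^ 4 = w at *
    omega

/-- Theorem D*, rank form, in terms of the graph `G_n^+`. -/
theorem topRk_of {k : ℕ} (hD : DsStmt.{u} k) : ∃ N : ℕ, ∀ n ≥ N,
    ∀ {α : Type u} (M : Matroid α) [M.Finite] (C₁ D₁ C₂ D₂ : Set α),
    C₁ ⊆ M.E → D₂ ⊆ M.E → Disjoint (M.E \ (C₁ ∪ D₁)) (M.E \ (C₂ ∪ D₂)) →
    IsBicircular (M ／ C₁ ＼ D₁) (GPlus n) → IsBicircular (M✶ ／ D₂ ＼ C₂) (GPlus n) →
    (N * rk M M.E ≤ n ^ 4 ∨ N * rk M✶ M.E ≤ n ^ 4) →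
    KGe M (M.E \ (C₁ ∪ D₁)) (M.E \ (C₂ ∪ D₂)) N → HasUniformMinor M k := by
  obtain ⟨n₀, h₀⟩ := rkStmt_of_ds k hD
  refine ⟨4 * n₀ + 2, ?_⟩
  intro n hn α M _ C₁ D₁ C₂ D₂ hC₁ hD₂ hdis hb₁ hb₂ hr hK
  obtain ⟨S₁, e₁, hS₁, hB₁, hG₁, -, hk₁⟩ := split1 (by omega) hC₁ hb₁
  obtain ⟨S₂, e₂, hS₂, hB₂, hG₂, -, hk₂⟩ := split1 (M := M✶) (by omega) hD₂ hb₂
  rw [Matroid.dual_ground, union_comm D₂ C₂] at hS₂ hk₂
  have hE₁ : M.E \ (C₁ ∪ D₁) ⊆ M.E := sdiff_subset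
  have hE₂ : M.E \ (C₂ ∪ D₂) ⊆ M.E := sdiff_subset
  have k1 : KGe M S₁ (M.E \ (C₂ ∪ D₂)) (2 * n₀) := by
    refine hk₁ _ _ hdis ?_
    intro X h1 h2
    have := hK X h1 h2
    omega
  have k2 : KGe M✶ S₂ S₁ n₀ := by
    refine hk₂ _ _ (hdis.symm.mono_right hS₁) ?_
    exact k1.dual (hS₁.trans hE₁)
  have k3 : KGe M S₁ S₂ n₀ := by
    have := k2.dual (M := M✶) (hS₂.trans hE₂)
    rwa [Matroid.dual_dual] at this
  refine h₀ n (by omega) M S₁ S₂ C₁ D₂ e₁ e₂ 0 0 0 0 (hS₁.trans hE₁) (hS₂.trans hE₂)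
    (hdis.mono hS₁ hS₂) ?_ ?_ hB₁ hG₁ hB₂ hG₂ ?_ k3
  · exact fun c hc => ⟨hC₁ hc, fun h => (hS₁ h).2 (Or.inl hc)⟩
  · exact fun d hd => ⟨hD₂ hd, fun h => (hS₂ h).2 (Or.inr hd)⟩
  · exact hr.imp (fun h => (Nat.mul_le_mul_right _ (by omega)).trans h)
      (fun h => (Nat.mul_le_mul_right _ (by omega)).trans h)

end BICS
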